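import Pool.Agent.H998.HK.Spec3

/-! Task EL2, part A: weak derivatives under linear measure preserving maps. -/

set_option autoImplicit false
set_option linter.unusedSectionVars false
set_option linter.unusedSimpArgs false

noncomputable section

namespace Pool.Agent.H123.HK

open MeasureTheory Filter Topology Set
open scoped ENNReal NNReal RealInnerProductSpace ComplexConjugate ContDiff
open Pool.Agent.H998.HK

section general
variable {X Y : Type} [NormedAddCommGroup X] [NormedSpace ℝ X] [MeasureSpace X] [BorelSpace X]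
  [NormedAddCommGroup Y] [NormedSpace ℝ Y] [MeasureSpace Y] [BorelSpace Y]

theorem WD_comp (L : X ≃L[ℝ] Y) (hL : MeasurePreserving (L : X → Y)) (e : X) (u g : Y → ℂ)
    (h : WD (L e) u g) : WD e (fun x => u (L x)) (fun x => g (L x)) := by
  intro φ hφ
  have hemb : MeasurableEmbedding (L : X → Y) := L.toHomeomorph.measurableEmbedding
  have h1 := h (fun y => φ (L.symm y))
    ⟨hφ.1.comp L.symm.contDiff, hφ.2.comp_homeomorph L.symm.toHomeomorph⟩
  have hfd : ∀ y, fderiv ℝ (fun y => φ (L.symm y)) y (L e) = fderiv ℝ φ (L.symm y) e := by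
    intro y
    have hd : DifferentiableAt ℝ φ (L.symm y) := hφ.1.differentiable (by simp) _
    have := (hd.hasFDerivAt.comp y L.symm.hasFDerivAt).fderiv
    have h2 : fderiv ℝ (fun y => φ (L.symm y)) y =
        (fderiv ℝ φ (L.symm y)).comp (L.symm : Y →L[ℝ] X) := this
    rw [h2]
    simp
  have e1 : ∫ y, fderiv ℝ (fun y => φ (L.symm y)) y (L e) • u y =
      ∫ x, fderiv ℝ φ x e • u (L x) := by
    rw [← hL.integral_comp hemb]
    refine integral_congr_ae (Eventually.of_forall fun x => ?_)
    simp only [hfd, L.symm_apply_apply]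
  have e2 : ∫ y, φ (L.symm y) • g y = ∫ x, φ x • g (L x) := by
    rw [← hL.integral_comp hemb]
    refine integral_congr_ae (Eventually.of_forall fun x => ?_)
    simp only [L.symm_apply_apply]
  rw [e1, e2] at h1
  exact h1

variable [IsLocallyFiniteMeasure (volume : Measure X)] [FiniteDimensional ℝ X]

theorem int_left {φ : X → ℝ} (hφ : Test φ) {u : X → ℂ} (hu : MemLp u 2) :
    Integrable fun z => φ z • u z :=
  (hu.locallyIntegrable (by norm_num)).integrable_smul_left_of_hasCompactSupport
    hφ.1.continuous hφ.2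

theorem int_left' {φ : X → ℝ} (hφ : Test φ) (e : X) {u : X → ℂ} (hu : MemLp u 2) :
    Integrable fun z => fderiv ℝ φ z e • u z := by
  refine (hu.locallyIntegrable (by norm_num)).integrable_smul_left_of_hasCompactSupport ?_ ?_
  · exact (hφ.1.continuous_fderiv (by simp)).clm_apply continuous_const
  · exact HasCompactSupport.fderiv_apply ℝ hφ.2 e

theorem WD_add {e : X} {u g u' g' : X → ℂ} (h : WD e u g) (h' : WD e u' g') (hu : MemLp u 2)
    (hg : MemLp g 2) (hu' : MemLp u' 2) (hg' : MemLp g' 2) :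
    WD e (fun x => u x + u' x) (fun x => g x + g' x) := by
  intro φ hφ
  simp only [smul_add]
  rw [integral_add (int_left' hφ e hu) (int_left' hφ e hu'),
    integral_add (int_left hφ hg) (int_left hφ hg'), h φ hφ, h' φ hφ, neg_add]

omit [BorelSpace X] [IsLocallyFiniteMeasure (volume : Measure X)] [FiniteDimensional ℝ X] in
theorem WD_smul {e : X} {u g : X → ℂ} (c : ℂ) (h : WD e u g) :
    WD e (fun x => c * u x) (fun x => c * g x) := by
  intro φ hφ
  have := h φ hφ
  have e1 : ∀ z, fderiv ℝ φ z e • (c * u z) = c * (fderiv ℝ φ z e • u z) := fun z => by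
    simp only [Complex.real_smul]; ring
  have e2 : ∀ z, φ z • (c * g z) = c * (φ z • g z) := fun z => by
    simp only [Complex.real_smul]; ring
  simp only [e1, e2, integral_const_mul, this, mul_neg]

omit [BorelSpace X] [IsLocallyFiniteMeasure (volume : Measure X)] [FiniteDimensional ℝ X] in
theorem WD_zero {e : X} : WD e (fun _ : X => (0 : ℂ)) (fun _ => 0) := by
  intro φ hφ
  simp

theorem WD_sum {ι : Type} (s : Finset ι) {e : X} {u g : ι → X → ℂ} (h : ∀ i ∈ s, WD e (u i) (g i))
    (hu : ∀ i ∈ s, MemLp (u i) 2) (hg : ∀ i ∈ s, MemLp (g i) 2) :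
    WD e (fun x => ∑ i ∈ s, u i x) (fun x => ∑ i ∈ s, g i x) := by
  classical
  induction s using Finset.induction_on with
  | empty => simpa using WD_zero
  | insert a s ha ih =>
    simp only [Finset.sum_insert ha]
    refine WD_add (h a (by simp)) (ih (fun i hi => h i (by simp [hi]))
      (fun i hi => hu i (by simp [hi])) (fun i hi => hg i (by simp [hi])))
      (hu a (by simp)) (hg a (by simp)) ?_ ?_
    · exact memLp_finsetSum s fun i hi => hu i (by simp [hi])
    · exact memLp_finsetSum s fun i hi => hg i (by simp [hi])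

theorem WD_congr {e : X} {u u' g g' : X → ℂ} (h : WD e u g) (hu : u =ᵐ[volume] u')
    (hg : g =ᵐ[volume] g') : WD e u' g' := by
  intro φ hφ
  have e1 : ∫ z, fderiv ℝ φ z e • u' z = ∫ z, fderiv ℝ φ z e • u z :=
    integral_congr_ae (hu.mono fun z hz => by simp only [hz])
  have e2 : ∫ z, φ z • g' z = ∫ z, φ z • g z :=
    integral_congr_ae (hg.mono fun z hz => by simp only [hz])
  rw [e1, e2, h φ hφ]

/-- uniqueness of weak derivatives -/
theorem WD_unique {e : X} {u g g' : X → ℂ} (h : WD e u g) (h' : WD e u g') (hg : MemLp g 2)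
    (hg' : MemLp g' 2) : g =ᵐ[volume] g' := by
  refine ae_eq_of_integral_contDiff_smul_eq (hg.locallyIntegrable (by norm_num))
    (hg'.locallyIntegrable (by norm_num)) fun φ h1 h2 => ?_
  have a := h φ ⟨h1, h2⟩
  have b := h' φ ⟨h1, h2⟩
  rw [a] at b
  exact neg_inj.1 b

end general

/-! ### permutations -/

/-- `x ↦ x ∘ π` -/
def RR {N : ℕ} (π : Equiv.Perm (Fin N)) : (Fin N → E3) ≃L[ℝ] (Fin N → E3) :=
  (LinearEquiv.funCongrLeft ℝ E3 π).toContinuousLinearEquiv

theorem RR_apply {N : ℕ} (π : Equiv.Perm (Fin N)) (x : Fin N → E3) : RR π x = x ∘ π := rfl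

theorem RR_mp {N : ℕ} (π : Equiv.Perm (Fin N)) :
    MeasurePreserving (RR π : (Fin N → E3) → (Fin N → E3)) := by
  have h := volume_measurePreserving_piCongrLeft (fun _ : Fin N => E3) π.symm
  have hf : (RR π : (Fin N → E3) → (Fin N → E3)) =
      ⇑(MeasurableEquiv.piCongrLeft (fun _ : Fin N => E3) π.symm) := by
    funext x
    funext i
    obtain ⟨j, rfl⟩ := π.symm.surjective i
    rw [MeasurableEquiv.piCongrLeft_apply_apply, RR_apply]
    simp
  rw [hf]
  exact h

/-- `z ↦ (z.1, z.2)` -/
def LL (n : ℕ) : Xn n ≃L[ℝ] (Fin (n + 1) → E3) := Fin.consEquivL ℝ (fun _ => E3)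

theorem LL_apply {n : ℕ} (z : Xn n) : LL n z = Fin.cons z.1 z.2 := rfl

theorem LL_mp (n : ℕ) : MeasurePreserving (LL n : Xn n → (Fin (n + 1) → E3)) := by
  have h := (volume_preserving_piFinSuccAbove (fun _ : Fin (n + 1) => E3) 0).symm
  have hf : (LL n : Xn n → (Fin (n + 1) → E3)) =
      ⇑(MeasurableEquiv.piFinSuccAbove (fun _ : Fin (n + 1) => E3) 0).symm := by
    funext z
    rw [LL_apply]
    simp [MeasurableEquiv.piFinSuccAbove]
    rfl
  rw [hf]
  exact h

theorem LL_ex (n : ℕ) (i : Fin 3) : LL n (ex n i) = ee (n + 1) 0 i := by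
  rw [LL_apply, ex, ee]
  funext j
  refine Fin.cases ?_ (fun j => ?_) j
  · simp
  · simp [Pi.single_apply, Fin.succ_ne_zero]

theorem LL_ey (n : ℕ) (j : Fin n) (i : Fin 3) : LL n (ey n j i) = ee (n + 1) j.succ i := by
  rw [LL_apply, ey, ee]
  funext k
  refine Fin.cases ?_ (fun k => ?_) k
  · simp [Pi.single_apply, (Fin.succ_ne_zero _).symm]
  · simp [Pi.single_apply]

theorem RR_ee {N : ℕ} (π : Equiv.Perm (Fin N)) (j : Fin N) (i : Fin 3) :
    RR π (ee N j i) = ee N (π.symm j) i := by
  rw [RR_apply, ee, ee]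
  funext k
  by_cases h : k = π.symm j
  · subst h; simp
  · have : π k ≠ j := fun h' => h (by rw [← h']; simp)
    simp [Pi.single_apply, h, this]

end Pool.Agent.H123.HK
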