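import Pool.Agent.H123.HK.A

/-! Task EL2, part B: the quadratic form. -/

set_option autoImplicit false
set_option linter.unusedSectionVars false
set_option linter.unusedSimpArgs false

noncomputable section

namespace Pool.Agent.H123.HK

open MeasureTheory Filter Topology Set
open scoped ENNReal NNReal RealInnerProductSpace ComplexConjugate ContDiff
open Pool.Agent.H998.HK

/-- gradients -/
abbrev GW (N : ℕ) : Type := Spin N → Fin N → Fin 3 → (Fin N → E3) → ℂ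

/-- the potential -/
def VV {N : ℕ} (v : E3 → ℝ) (x : Fin N → E3) : ℝ :=
  ∑ j, v (x j) + ∑ j, ∑ k, if j < k then 1 / ‖x j - x k‖ else 0

/-- integrand of the quadratic form -/
def qq {N : ℕ} (E : ℝ) (v : E3 → ℝ) (u : (Fin N → E3) → ℂ) (G : Fin N → Fin 3 → (Fin N → E3) → ℂ)
    (x : Fin N → E3) : ℝ :=
  (1 / 2 : ℝ) * (∑ j, ∑ i, ‖G j i x‖ ^ 2) + (VV v x - E) * ‖u x‖ ^ 2

/-- integrand of the sesquilinear form -/
def FF {N : ℕ} (E : ℝ) (v : E3 → ℝ) (w : (Fin N → E3) → ℂ) (K : Fin N → Fin 3 → (Fin N → E3) → ℂ)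
    (u : (Fin N → E3) → ℂ) (G : Fin N → Fin 3 → (Fin N → E3) → ℂ)
    (x : Fin N → E3) : ℂ :=
  (1 / 2 : ℂ) * (∑ j, ∑ i, conj (K j i x) * G j i x) +
    ((VV v x - E : ℝ) : ℂ) * (conj (w x) * u x)

/-- what S_WFB gives -/
def HB (n : ℕ) (v : E3 → ℝ) (C : ℝ) : Prop :=
  ∀ (Ψ : Wave (n + 1)) (G : Spin (n + 1) → Fin (n + 1) → Fin 3 → (Fin (n + 1) → E3) → ℂ),
  IsWave (n + 1) Ψ G →
  (∀ s j, Integrable fun x => v (x j) * ‖Ψ s x‖ ^ 2) ∧
  (∀ s (j k : Fin (n + 1)), j < k → Integrable fun x => 1 / ‖x j - x k‖ * ‖Ψ s x‖ ^ 2) ∧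
  (∑ s, ∑ j, ∫ x, |v (x j)| * ‖Ψ s x‖ ^ 2) ≤
    (1 / 4 : ℝ) * (∑ s, ∑ j, ∑ i, ∫ x, ‖G s j i x‖ ^ 2) + C * normSq (n + 1) Ψ

variable {n : ℕ} {v : E3 → ℝ} {C : ℝ}

theorem int_VV (hB : HB n v C) {Ψ : Wave (n + 1)} {G : GW (n + 1)} (h : IsWave (n + 1) Ψ G)
    (s : Spin (n + 1)) : Integrable fun x => VV v x * ‖Ψ s x‖ ^ 2 := by
  obtain ⟨h1, h2, -⟩ := hB Ψ G h
  have e : (fun x : Fin (n + 1) → E3 => VV v x * ‖Ψ s x‖ ^ 2) =
      fun x => ∑ j, v (x j) * ‖Ψ s x‖ ^ 2 +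
        ∑ j, ∑ k, if j < k then 1 / ‖x j - x k‖ * ‖Ψ s x‖ ^ 2 else 0 := by
    funext x
    simp only [VV, add_mul, Finset.sum_mul, ite_mul, zero_mul]
  rw [e]
  refine (integrable_finsetSum _ fun j _ => h1 s j).add
    (integrable_finsetSum _ fun j _ => integrable_finsetSum _ fun k _ => ?_)
  by_cases hjk : j < k
  · simpa only [hjk, if_true] using h2 s j k hjk
  · simp only [hjk, if_false]
    exact integrable_zero _ _ _

theorem int_sq {X : Type} [MeasurableSpace X] {μ : Measure X} {u : X → ℂ} (h : MemLp u 2 μ) :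
    Integrable (fun x => ‖u x‖ ^ 2) μ := by
  have := h.integrable_norm_pow (by norm_num)
  simpa using this

theorem int_qq (hB : HB n v C) {Ψ : Wave (n + 1)} {G : GW (n + 1)} (h : IsWave (n + 1) Ψ G)
    (E : ℝ) (s : Spin (n + 1)) : Integrable (qq E v (Ψ s) (G s)) := by
  have e : qq E v (Ψ s) (G s) = fun x => (1 / 2 : ℝ) * (∑ j, ∑ i, ‖G s j i x‖ ^ 2) +
      (VV v x * ‖Ψ s x‖ ^ 2 - E * ‖Ψ s x‖ ^ 2) := by
    funext x
    simp only [qq]; ring
  rw [e]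
  refine Integrable.add (Integrable.const_mul
    (integrable_finsetSum _ fun j _ => integrable_finsetSum _ fun i _ =>
      int_sq (h.gradMemLp s j i)) _) ?_
  exact (int_VV hB h s).sub ((int_sq (h.memLp s)).const_mul E)

theorem energy_eq (hB : HB n v C) {Ψ : Wave (n + 1)} {G : GW (n + 1)} (h : IsWave (n + 1) Ψ G)
    (E : ℝ) : ∑ s, ∫ x, qq E v (Ψ s) (G s) x = energy (n + 1) v Ψ G - E * normSq (n + 1) Ψ := by
  rw [energy, normSq, Finset.mul_sum, ← Finset.sum_sub_distrib]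
  refine Finset.sum_congr rfl fun s _ => ?_
  have e : qq E v (Ψ s) (G s) = fun x => (1 / 2 : ℝ) * (∑ j, ∑ i, ‖G s j i x‖ ^ 2) +
      (VV v x * ‖Ψ s x‖ ^ 2 - E * ‖Ψ s x‖ ^ 2) := by
    funext x
    simp only [qq]; ring
  have i1 : Integrable fun x : Fin (n + 1) → E3 => ∑ j, ∑ i, ‖G s j i x‖ ^ 2 :=
    integrable_finsetSum _ fun j _ => integrable_finsetSum _ fun i _ =>
      int_sq (h.gradMemLp s j i)
  have i2 := int_VV hB h s
  have i3 := (int_sq (h.memLp s)).const_mul E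
  simp only [e]
  have r1 : ∫ x : Fin (n + 1) → E3, ((1 / 2 : ℝ) * (∑ j, ∑ i, ‖G s j i x‖ ^ 2) +
      (VV v x * ‖Ψ s x‖ ^ 2 - E * ‖Ψ s x‖ ^ 2)) =
      (∫ x : Fin (n + 1) → E3, (1 / 2 : ℝ) * (∑ j, ∑ i, ‖G s j i x‖ ^ 2)) +
      ∫ x : Fin (n + 1) → E3, (VV v x * ‖Ψ s x‖ ^ 2 - E * ‖Ψ s x‖ ^ 2) :=
    integral_add (i1.const_mul _) (i2.sub i3)
  rw [r1, integral_sub i2 i3, integral_const_mul,
    integral_const_mul,
    integral_finsetSum _ (fun j _ => integrable_finsetSum _ fun i _ => int_sq (h.gradMemLp s j i))]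
  have : ∀ j, ∫ x : Fin (n + 1) → E3, ∑ i, ‖G s j i x‖ ^ 2 = ∑ i, ∫ x, ‖G s j i x‖ ^ 2 :=
    fun j => integral_finsetSum _ fun i _ => int_sq (h.gradMemLp s j i)
  simp only [this]
  have e2 : ∫ x : Fin (n + 1) → E3, VV v x * ‖Ψ s x‖ ^ 2 = ∫ x : Fin (n + 1) → E3,
      (∑ j, v (x j) + ∑ j, ∑ k, if j < k then 1 / ‖x j - x k‖ else 0) * ‖Ψ s x‖ ^ 2 := rfl
  rw [e2]
  ring

theorem low (hB : HB n v C) {Ψ : Wave (n + 1)} {G : GW (n + 1)} (h : IsWave (n + 1) Ψ G) :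
    -(C * normSq (n + 1) Ψ) ≤ energy (n + 1) v Ψ G := by
  obtain ⟨h1, h2, h3⟩ := hB Ψ G h
  have hK : 0 ≤ ∑ s, ∑ j, ∑ i, ∫ x, ‖G s j i x‖ ^ 2 :=
    Finset.sum_nonneg fun s _ => Finset.sum_nonneg fun j _ => Finset.sum_nonneg fun i _ =>
      integral_nonneg fun x => by positivity
  have hV : ∀ s, -(∑ j, ∫ x, |v (x j)| * ‖Ψ s x‖ ^ 2) ≤ ∫ x : Fin (n + 1) → E3,
      (∑ j, v (x j) + ∑ j, ∑ k, if j < k then 1 / ‖x j - x k‖ else 0) * ‖Ψ s x‖ ^ 2 := by
    intro s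
    have ia : ∀ j, Integrable fun x : Fin (n + 1) → E3 => |v (x j)| * ‖Ψ s x‖ ^ 2 := by
      intro j
      have := (h1 s j).abs
      refine this.congr (Eventually.of_forall fun x => ?_)
      simp [abs_mul]
    rw [← integral_finsetSum _ (fun j _ => ia j), ← integral_neg]
    refine integral_mono (integrable_finsetSum _ fun j _ => ia j).neg (int_VV hB h s) fun x => ?_
    simp only []
    rw [← Finset.sum_mul, ← neg_mul]
    refine mul_le_mul_of_nonneg_right ?_ (by positivity)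
    have c1 : -∑ j, |v (x j)| ≤ ∑ j, v (x j) := by
      rw [← Finset.sum_neg_distrib]
      exact Finset.sum_le_sum fun j _ => neg_abs_le _
    have c2 : (0 : ℝ) ≤ ∑ j : Fin (n + 1), ∑ k, if j < k then 1 / ‖x j - x k‖ else 0 :=
      Finset.sum_nonneg fun j _ => Finset.sum_nonneg fun k _ => by
        split_ifs <;> positivity
    linarith
  have hsum : energy (n + 1) v Ψ G ≥ (1 / 2 : ℝ) * (∑ s, ∑ j, ∑ i, ∫ x, ‖G s j i x‖ ^ 2) -
      ∑ s, ∑ j, ∫ x, |v (x j)| * ‖Ψ s x‖ ^ 2 := by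
    rw [energy, Finset.mul_sum, ← Finset.sum_sub_distrib]
    refine Finset.sum_le_sum fun s _ => ?_
    have := hV s
    linarith
  linarith

/-! ### operations on waves -/

theorem IsWave_smul {N : ℕ} {Ψ : Wave N} {G : GW N} (h : IsWave N Ψ G) (c : ℂ) :
    IsWave N (fun s x => c * Ψ s x) (fun s j i x => c * G s j i x) where
  memLp s := (h.memLp s).const_mul c
  gradMemLp s j i := (h.gradMemLp s j i).const_mul c
  grad s j i := WD_smul c (h.grad s j i)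
  antisymm π s := (h.antisymm π s).mono fun x hx => by
    simp only [hx]; ring

theorem IsWave_add {N : ℕ} {Ψ Φ : Wave N} {G K : GW N} (h : IsWave N Ψ G) (h' : IsWave N Φ K) :
    IsWave N (fun s x => Ψ s x + Φ s x) (fun s j i x => G s j i x + K s j i x) where
  memLp s := (h.memLp s).add (h'.memLp s)
  gradMemLp s j i := (h.gradMemLp s j i).add (h'.gradMemLp s j i)
  grad s j i := WD_add (h.grad s j i) (h'.grad s j i) (h.memLp s) (h.gradMemLp s j i)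
    (h'.memLp s) (h'.gradMemLp s j i)
  antisymm π s := by
    filter_upwards [h.antisymm π s, h'.antisymm π s] with x hx hx'
    rw [hx, hx']; ring

theorem nonneg (hB : HB n v C) {Ψ : Wave (n + 1)} {G : GW (n + 1)} (h : IsWave (n + 1) Ψ G) :
    0 ≤ ∑ s, ∫ x, qq (E0 n v) v (Ψ s) (G s) x := by
  rw [energy_eq hB h]
  have hn : 0 ≤ normSq (n + 1) Ψ :=
    Finset.sum_nonneg fun s _ => integral_nonneg fun x => by positivity
  rcases hn.eq_or_lt with h0 | h0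
  · have := low hB h
    rw [← h0] at this ⊢
    simp only [mul_zero, neg_zero, sub_zero] at this ⊢
    exact this
  · have hs : 0 < √(normSq (n + 1) Ψ) := Real.sqrt_pos.2 h0
    have hw := IsWave_smul h (((√(normSq (n + 1) Ψ))⁻¹ : ℝ) : ℂ)
    have hc2 : ∀ z : ℂ, ‖(((√(normSq (n + 1) Ψ))⁻¹ : ℝ) : ℂ) * z‖ ^ 2 =
        (normSq (n + 1) Ψ)⁻¹ * ‖z‖ ^ 2 := by
      intro z
      rw [norm_mul, Complex.norm_real, mul_pow, norm_inv, inv_pow, Real.norm_eq_abs,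
        sq_abs, Real.sq_sqrt hn]
    have e1 : normSq (n + 1) (fun s x => (((√(normSq (n + 1) Ψ))⁻¹ : ℝ) : ℂ) * Ψ s x) = 1 := by
      conv_lhs => rw [normSq]
      simp only [hc2, integral_const_mul]
      rw [← Finset.mul_sum]
      exact inv_mul_cancel₀ h0.ne'
    have e2 : energy (n + 1) v (fun s x => (((√(normSq (n + 1) Ψ))⁻¹ : ℝ) : ℂ) * Ψ s x)
        (fun s j i x => (((√(normSq (n + 1) Ψ))⁻¹ : ℝ) : ℂ) * G s j i x) =
        (normSq (n + 1) Ψ)⁻¹ * energy (n + 1) v Ψ G := by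
      conv_lhs => rw [energy]
      conv_rhs => rw [energy, Finset.mul_sum]
      refine Finset.sum_congr rfl fun s _ => ?_
      have e3 : ∀ x : Fin (n + 1) → E3,
          (∑ j, v (x j) + ∑ j, ∑ k, if j < k then 1 / ‖x j - x k‖ else 0) *
          ((normSq (n + 1) Ψ)⁻¹ * ‖Ψ s x‖ ^ 2) = (normSq (n + 1) Ψ)⁻¹ *
          ((∑ j, v (x j) + ∑ j, ∑ k, if j < k then 1 / ‖x j - x k‖ else 0) * ‖Ψ s x‖ ^ 2) :=
        fun x => by ring
      simp only [hc2, e3, integral_const_mul]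
      simp only [← Finset.mul_sum]
      ring
    have hle : E0 n v ≤ (normSq (n + 1) Ψ)⁻¹ * energy (n + 1) v Ψ G := by
      refine csInf_le ⟨-C, ?_⟩ ⟨_, _, hw, e1, e2.symm⟩
      rintro e ⟨Φ, K, hΦ, h1, rfl⟩
      have := low hB hΦ
      rw [h1] at this
      linarith
    have := mul_le_mul_of_nonneg_left hle hn
    rw [← mul_assoc, mul_inv_cancel₀ h0.ne', one_mul] at this
    linarith

theorem qq_add {N : ℕ} (E : ℝ) (v : E3 → ℝ) (u w : (Fin N → E3) → ℂ)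
    (G K : Fin N → Fin 3 → (Fin N → E3) → ℂ) (t : ℝ) (x : Fin N → E3) :
    qq E v (fun x => u x + (t : ℂ) * w x) (fun j i x => G j i x + (t : ℂ) * K j i x) x =
      qq E v u G x + 2 * t * (FF E v w K u G x).re + t ^ 2 * qq E v w K x := by
  have key : ∀ a b : ℂ, ‖a + (t : ℂ) * b‖ ^ 2 = ‖a‖ ^ 2 + 2 * t * (conj b * a).re +
      t ^ 2 * ‖b‖ ^ 2 := by
    intro a b
    simp only [← Complex.normSq_eq_norm_sq, Complex.normSq_apply, Complex.add_re, Complex.add_im,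
      Complex.mul_re, Complex.mul_im, Complex.ofReal_re, Complex.ofReal_im, Complex.conj_re,
      Complex.conj_im]
    ring
  have h1 : (FF E v w K u G x).re = (1 / 2 : ℝ) * (∑ j, ∑ i, (conj (K j i x) * G j i x).re) +
      (VV v x - E) * (conj (w x) * u x).re := by
    rw [FF, Complex.add_re, Complex.re_ofReal_mul]
    congr 1
    have : (1 / 2 : ℂ) = ((1 / 2 : ℝ) : ℂ) := by norm_num
    rw [this, Complex.re_ofReal_mul]
    simp only [Complex.re_sum]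
  rw [h1]
  simp only [qq, key, Finset.sum_add_distrib, ← Finset.mul_sum]
  ring

theorem EL1 (hB : HB n v C) {Ψ Φ : Wave (n + 1)} {G K : GW (n + 1)} (h : IsWave (n + 1) Ψ G)
    (h' : IsWave (n + 1) Φ K) (h0 : ∑ s, ∫ x, qq (E0 n v) v (Ψ s) (G s) x = 0) :
    (∀ s, Integrable fun x => (FF (E0 n v) v (Φ s) (K s) (Ψ s) (G s) x).re) ∧
      ∑ s, ∫ x, (FF (E0 n v) v (Φ s) (K s) (Ψ s) (G s) x).re = 0 := by
  have hw : ∀ t : ℝ, IsWave (n + 1) (fun s x => Ψ s x + (t : ℂ) * Φ s x)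
      (fun s j i x => G s j i x + (t : ℂ) * K s j i x) := fun t =>
    IsWave_add h (IsWave_smul h' t)
  have hI : ∀ s, Integrable fun x => (FF (E0 n v) v (Φ s) (K s) (Ψ s) (G s) x).re := by
    intro s
    have i1 := int_qq hB (hw 1) (E0 n v) s
    have i2 := int_qq hB h (E0 n v) s
    have i3 := int_qq hB h' (E0 n v) s
    refine (((i1.sub i2).sub i3).const_mul (1 / 2)).congr (Eventually.of_forall fun x => ?_)
    have := qq_add (E0 n v) v (Ψ s) (Φ s) (G s) (K s) 1 x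
    simp only [Pi.sub_apply]
    rw [this]
    ring
  refine ⟨hI, ?_⟩
  have key : ∀ t : ℝ, 0 ≤ 2 * t * (∑ s, ∫ x, (FF (E0 n v) v (Φ s) (K s) (Ψ s) (G s) x).re) +
      t ^ 2 * ∑ s, ∫ x, qq (E0 n v) v (Φ s) (K s) x := by
    intro t
    have := nonneg hB (hw t)
    have e : ∀ s, ∫ x, qq (E0 n v) v (fun x => Ψ s x + (t : ℂ) * Φ s x)
        (fun j i x => G s j i x + (t : ℂ) * K s j i x) x =
        (∫ x, qq (E0 n v) v (Ψ s) (G s) x) +
          2 * t * (∫ x, (FF (E0 n v) v (Φ s) (K s) (Ψ s) (G s) x).re) +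
          t ^ 2 * (∫ x, qq (E0 n v) v (Φ s) (K s) x) := by
      intro s
      simp only [qq_add]
      have i2 := int_qq hB h (E0 n v) s
      have i3 := int_qq hB h' (E0 n v) s
      have r1 : ∫ x, (qq (E0 n v) v (Ψ s) (G s) x +
          2 * t * (FF (E0 n v) v (Φ s) (K s) (Ψ s) (G s) x).re +
          t ^ 2 * qq (E0 n v) v (Φ s) (K s) x) =
          (∫ x, (qq (E0 n v) v (Ψ s) (G s) x +
          2 * t * (FF (E0 n v) v (Φ s) (K s) (Ψ s) (G s) x).re)) +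
          ∫ x, t ^ 2 * qq (E0 n v) v (Φ s) (K s) x :=
        integral_add (i2.add ((hI s).const_mul _)) (i3.const_mul _)
      rw [r1, integral_add i2 ((hI s).const_mul _), integral_const_mul, integral_const_mul]
    simp only [e, Finset.sum_add_distrib, ← Finset.mul_sum, h0, zero_add] at this
    exact this
  set b := ∑ s, ∫ x, (FF (E0 n v) v (Φ s) (K s) (Ψ s) (G s) x).re
  set a := ∑ s, ∫ x, qq (E0 n v) v (Φ s) (K s) x
  have ha : 0 ≤ a := nonneg hB h'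
  -- choose `t = -b / (a + 1)`
  have := key (-b / (a + 1))
  have h1 : 0 < a + 1 := by linarith
  have h2 : 2 * (-b / (a + 1)) * b + (-b / (a + 1)) ^ 2 * a =
      -(b ^ 2 * (a + 2)) / (a + 1) ^ 2 := by
    field_simp
    ring
  rw [h2] at this
  have h3 : 0 ≤ -(b ^ 2 * (a + 2)) := by
    by_contra hcon
    push Not at hcon
    have := div_neg_of_neg_of_pos hcon (by positivity : 0 < (a + 1) ^ 2)
    linarith
  have h4 : b ^ 2 * (a + 2) ≤ 0 := by linarith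
  have h5 : b ^ 2 ≤ 0 := by
    by_contra hcon
    push Not at hcon
    have := mul_pos hcon (by linarith : 0 < a + 2)
    linarith
  nlinarith [sq_nonneg b]

end Pool.Agent.H123.HK
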