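import Pool.Agent.H123.HK.B

/-! Task EL2, part C: antisymmetrisation and the Euler-Lagrange equation. -/

set_option autoImplicit false
set_option linter.unusedSectionVars false
set_option linter.unusedSimpArgs false

noncomputable section

namespace Pool.Agent.H123.HK

open MeasureTheory Filter Topology Set
open scoped ENNReal NNReal RealInnerProductSpace ComplexConjugate ContDiff
open Pool.Agent.H998.HK

/-- the potential is symmetric -/
theorem VV_perm {N : ℕ} (v : E3 → ℝ) (π : Equiv.Perm (Fin N)) (x : Fin N → E3) :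
    VV v (x ∘ π) = VV v x := by
  have key : ∀ y : Fin N → E3, (∑ j, ∑ k, if j < k then 1 / ‖y j - y k‖ else 0) =
      (1 / 2 : ℝ) * ∑ j, ∑ k, if j ≠ k then 1 / ‖y j - y k‖ else 0 := by
    intro y
    have h1 : (∑ j, ∑ k, if j ≠ k then 1 / ‖y j - y k‖ else 0) =
        (∑ j, ∑ k, if j < k then 1 / ‖y j - y k‖ else 0) +
        ∑ j, ∑ k, if k < j then 1 / ‖y j - y k‖ else 0 := by
      rw [← Finset.sum_add_distrib]
      refine Finset.sum_congr rfl fun j _ => ?_
      rw [← Finset.sum_add_distrib]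
      refine Finset.sum_congr rfl fun k _ => ?_
      rcases lt_trichotomy j k with h | h | h
      · simp [h, h.ne, h.not_gt]
      · simp [h]
      · simp [h, h.ne', h.not_gt]
    have h2 : (∑ j, ∑ k, if k < j then 1 / ‖y j - y k‖ else 0) =
        ∑ j, ∑ k, if j < k then 1 / ‖y j - y k‖ else 0 := by
      rw [Finset.sum_comm]
      refine Finset.sum_congr rfl fun j _ => Finset.sum_congr rfl fun k _ => ?_
      rw [norm_sub_rev]
    rw [h1, h2]; ring
  rw [VV, VV, key, key]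
  have e1 : ∑ j, v ((x ∘ π) j) = ∑ j, v (x j) := Equiv.sum_comp π fun j => v (x j)
  have e2 : (∑ j, ∑ k, if j ≠ k then 1 / ‖(x ∘ π) j - (x ∘ π) k‖ else 0) =
      ∑ j, ∑ k, if j ≠ k then 1 / ‖x j - x k‖ else 0 := by
    rw [← Equiv.sum_comp π fun j => ∑ k, if j ≠ k then 1 / ‖x j - x k‖ else 0]
    refine Finset.sum_congr rfl fun j _ => ?_
    rw [← Equiv.sum_comp π fun k => if π j ≠ k then 1 / ‖x (π j) - x k‖ else 0]
    refine Finset.sum_congr rfl fun k _ => ?_
    simp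
  rw [e1, e2]

section anti
variable {N : ℕ} (s0 : Spin N) (u : (Fin N → E3) → ℂ) (K : Fin N → Fin 3 → (Fin N → E3) → ℂ)

/-- antisymmetrisation -/
def AW : Wave N := fun s x => ∑ π : Equiv.Perm (Fin N),
  (if s ∘ π = s0 then (Equiv.Perm.sign π : ℂ) else 0) * u (x ∘ π)

def AG : GW N := fun s j i x => ∑ π : Equiv.Perm (Fin N),
  (if s ∘ π = s0 then (Equiv.Perm.sign π : ℂ) else 0) * K (π.symm j) i (x ∘ π)

variable {s0 u K}

theorem memLp_RR {w : (Fin N → E3) → ℂ} (hw : MemLp w 2) (π : Equiv.Perm (Fin N)) :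
    MemLp (fun x => w (x ∘ π)) 2 :=
  hw.comp_measurePreserving (RR_mp π)

theorem isWave_A (hu : MemLp u 2) (hK : ∀ j i, MemLp (K j i) 2)
    (hD : ∀ j i, WD (ee N j i) u (K j i)) : IsWave N (AW s0 u) (AG s0 K) where
  memLp s := memLp_finsetSum _ fun π _ => (memLp_RR hu π).const_mul _
  gradMemLp s j i := memLp_finsetSum _ fun π _ => (memLp_RR (hK _ i) π).const_mul _
  grad s j i := by
    refine WD_sum _ (fun π _ => WD_smul _ ?_) (fun π _ => (memLp_RR hu π).const_mul _)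
      fun π _ => (memLp_RR (hK _ i) π).const_mul _
    have := WD_comp (RR π) (RR_mp π) (ee N j i) u (K (π.symm j) i) (by
      rw [RR_ee]; exact hD _ i)
    exact this
  antisymm σ s := by
    refine Eventually.of_forall fun x => ?_
    simp only [AW, Finset.mul_sum]
    rw [← Equiv.sum_comp (Equiv.mulLeft σ) fun π : Equiv.Perm (Fin N) =>
      (Equiv.Perm.sign σ : ℂ) * ((if s ∘ π = s0 then (Equiv.Perm.sign π : ℂ) else 0) * u (x ∘ π))]
    refine Finset.sum_congr rfl fun π _ => ?_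
    have e1 : s ∘ (Equiv.mulLeft σ π : Equiv.Perm (Fin N)) = (s ∘ σ) ∘ π := rfl
    have e2 : x ∘ (Equiv.mulLeft σ π : Equiv.Perm (Fin N)) = (x ∘ σ) ∘ π := rfl
    rw [e1, e2]
    by_cases h : (s ∘ σ) ∘ π = s0
    · rw [if_pos h, if_pos h]
      have : (Equiv.Perm.sign (Equiv.mulLeft σ π : Equiv.Perm (Fin N)) : ℂ) =
          (Equiv.Perm.sign σ : ℂ) * (Equiv.Perm.sign π : ℂ) := by
        rw [Equiv.coe_mulLeft, Equiv.Perm.sign_mul]
        push_cast
        ring
      rw [this]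
      have h1 : (Equiv.Perm.sign σ : ℂ) * (Equiv.Perm.sign σ : ℂ) = 1 := by
        have := Int.units_mul_self (Equiv.Perm.sign σ)
        have h2 : ((Equiv.Perm.sign σ * Equiv.Perm.sign σ : ℤˣ) : ℂ) = 1 := by
          rw [this]; simp
        push_cast at h2
        exact h2
      linear_combination (-(Equiv.Perm.sign π : ℂ) * u ((x ∘ σ) ∘ π)) * h1
    · rw [if_neg h, if_neg h]; ring

end anti

variable {n : ℕ} {v : E3 → ℝ} {C : ℝ}

theorem sign_sq {N : ℕ} (σ : Equiv.Perm (Fin N)) :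
    (Equiv.Perm.sign σ : ℂ) * (Equiv.Perm.sign σ : ℂ) = 1 := by
  have := Int.units_mul_self (Equiv.Perm.sign σ)
  have h2 : ((Equiv.Perm.sign σ * Equiv.Perm.sign σ : ℤˣ) : ℂ) = 1 := by
    rw [this]; simp
  push_cast at h2
  exact h2

/-- antisymmetry of the gradient -/
theorem grad_anti {N : ℕ} {Ψ : Wave N} {G : GW N} (h : IsWave N Ψ G) (π : Equiv.Perm (Fin N))
    (s : Spin N) (j : Fin N) (i : Fin 3) : ∀ᵐ x : Fin N → E3,
      G (s ∘ π) (π.symm j) i (x ∘ π) = (Equiv.Perm.sign π : ℂ) * G s j i x := by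
  have h1 := WD_comp (RR π) (RR_mp π) (ee N j i) (Ψ (s ∘ π)) (G (s ∘ π) (π.symm j) i) (by
      rw [RR_ee]; exact h.grad _ _ i)
  have h2 := WD_smul (Equiv.Perm.sign π : ℂ) (h.grad s j i)
  have h3 : (fun x => Ψ (s ∘ π) (RR π x)) =ᵐ[volume] fun x => (Equiv.Perm.sign π : ℂ) * Ψ s x :=
    h.antisymm π s
  have h4 := WD_congr h1 h3 (Filter.EventuallyEq.refl _ _)
  exact WD_unique h4 h2 (memLp_RR (h.gradMemLp _ _ i) π) ((h.gradMemLp s j i).const_mul _)

theorem FF_add {N : ℕ} (E : ℝ) (v : E3 → ℝ) (w w' : (Fin N → E3) → ℂ)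
    (K K' : Fin N → Fin 3 → (Fin N → E3) → ℂ) (u : (Fin N → E3) → ℂ)
    (G : Fin N → Fin 3 → (Fin N → E3) → ℂ) (x : Fin N → E3) :
    FF E v (fun x => w x + w' x) (fun j i x => K j i x + K' j i x) u G x =
      FF E v w K u G x + FF E v w' K' u G x := by
  simp only [FF, map_add, add_mul, Finset.sum_add_distrib]
  ring

theorem FF_smul {N : ℕ} (E : ℝ) (v : E3 → ℝ) (c : ℂ) (w : (Fin N → E3) → ℂ)
    (K : Fin N → Fin 3 → (Fin N → E3) → ℂ) (u : (Fin N → E3) → ℂ)
    (G : Fin N → Fin 3 → (Fin N → E3) → ℂ) (x : Fin N → E3) :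
    FF E v (fun x => c * w x) (fun j i x => c * K j i x) u G x =
      conj c * FF E v w K u G x := by
  simp only [FF, map_mul, mul_assoc, ← Finset.mul_sum]
  ring

theorem FF_lin {N : ℕ} (E : ℝ) (v : E3 → ℝ) {ι : Type} (t : Finset ι) (c : ι → ℂ)
    (w : ι → (Fin N → E3) → ℂ) (K : ι → Fin N → Fin 3 → (Fin N → E3) → ℂ) (u : (Fin N → E3) → ℂ)
    (G : Fin N → Fin 3 → (Fin N → E3) → ℂ) (x : Fin N → E3) :
    FF E v (fun x => ∑ p ∈ t, c p * w p x) (fun j i x => ∑ p ∈ t, c p * K p j i x) u G x =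
      ∑ p ∈ t, conj (c p) * FF E v (w p) (K p) u G x := by
  classical
  induction t using Finset.induction_on with
  | empty => simp [FF]
  | insert a t ha ih =>
    simp only [Finset.sum_insert ha]
    rw [← ih, ← FF_smul, ← FF_add]

theorem FF_sum {E : ℝ} {Ψ : Wave (n + 1)} {G : GW (n + 1)} (h : IsWave (n + 1) Ψ G)
    (s0 : Spin (n + 1)) (u : (Fin (n + 1) → E3) → ℂ)
    (K : Fin (n + 1) → Fin 3 → (Fin (n + 1) → E3) → ℂ) :
    ∀ᵐ x, ∑ s, FF E v (AW s0 u s) (AG s0 K s) (Ψ s) (G s) x =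
      ∑ π : Equiv.Perm (Fin (n + 1)), FF E v u K (Ψ s0) (G s0) (x ∘ π) := by
  have h1 : ∀ᵐ x, ∀ (π : Equiv.Perm (Fin (n + 1))) (s : Spin (n + 1)),
      Ψ (s ∘ π) (x ∘ π) = (Equiv.Perm.sign π : ℂ) * Ψ s x := by
    rw [ae_all_iff]; intro π
    rw [ae_all_iff]; intro s
    exact h.antisymm π s
  have h2 : ∀ᵐ x, ∀ (π : Equiv.Perm (Fin (n + 1))) (s : Spin (n + 1)) (j : Fin (n + 1))
      (i : Fin 3), G (s ∘ π) (π.symm j) i (x ∘ π) = (Equiv.Perm.sign π : ℂ) * G s j i x := by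
    rw [ae_all_iff]; intro π
    rw [ae_all_iff]; intro s
    rw [ae_all_iff]; intro j
    rw [ae_all_iff]; intro i
    exact grad_anti h π s j i
  filter_upwards [h1, h2] with x hx1 hx2
  have e1 : ∀ s, FF E v (AW s0 u s) (AG s0 K s) (Ψ s) (G s) x =
      ∑ π : Equiv.Perm (Fin (n + 1)),
        conj (if s ∘ π = s0 then (Equiv.Perm.sign π : ℂ) else 0) *
        FF E v (fun x => u (x ∘ π)) (fun j i x => K (π.symm j) i (x ∘ π)) (Ψ s) (G s) x := by
    intro s
    exact FF_lin E v Finset.univ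
      (fun π : Equiv.Perm (Fin (n + 1)) => if s ∘ π = s0 then (Equiv.Perm.sign π : ℂ) else 0)
      (fun π x => u (x ∘ π)) (fun π j i x => K (π.symm j) i (x ∘ π)) (Ψ s) (G s) x
  simp only [e1]
  rw [Finset.sum_comm]
  refine Finset.sum_congr rfl fun π _ => ?_
  have hs : (s0 ∘ π.symm) ∘ π = s0 := by
    funext j; simp
  rw [Finset.sum_eq_single (s0 ∘ π.symm)]
  · rw [if_pos hs, map_intCast]
    have hΨ := hx1 π (s0 ∘ π.symm)
    have hG := hx2 π (s0 ∘ π.symm)
    rw [hs] at hΨ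
    simp only [hs] at hG
    have e2 : FF E v u K (Ψ s0) (G s0) (x ∘ π) =
        (1 / 2 : ℂ) * (∑ j, ∑ i, conj (K (π.symm j) i (x ∘ π)) *
          ((Equiv.Perm.sign π : ℂ) * G (s0 ∘ π.symm) j i x)) +
        ((VV v x - E : ℝ) : ℂ) * (conj (u (x ∘ π)) *
          ((Equiv.Perm.sign π : ℂ) * Ψ (s0 ∘ π.symm) x)) := by
      rw [FF, VV_perm, hΨ]
      congr 2
      rw [← Equiv.sum_comp π.symm]
      refine Finset.sum_congr rfl fun j _ => Finset.sum_congr rfl fun i _ => ?_
      rw [hG]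
    rw [e2, FF]
    have e3 : (∑ j, ∑ i, conj (K (π.symm j) i (x ∘ π)) *
          ((Equiv.Perm.sign π : ℂ) * G (s0 ∘ π.symm) j i x)) = (Equiv.Perm.sign π : ℂ) *
          ∑ j, ∑ i, conj (K (π.symm j) i (x ∘ π)) * G (s0 ∘ π.symm) j i x := by
      rw [Finset.mul_sum]
      refine Finset.sum_congr rfl fun j _ => ?_
      rw [Finset.mul_sum]
      refine Finset.sum_congr rfl fun i _ => ?_
      ring
    rw [e3]
    ring
  · intro s _ hne
    rw [if_neg, map_zero, zero_mul]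
    intro h'
    apply hne
    rw [← h']
    funext j; simp
  · intro hcon
    exact absurd (Finset.mem_univ _) hcon

/-- the Euler-Lagrange equation for one spin component -/
theorem EL_comp (hB : HB n v C) {Ψ : Wave (n + 1)} {G : GW (n + 1)} (h : IsWave (n + 1) Ψ G)
    (h0 : ∑ s, ∫ x, qq (E0 n v) v (Ψ s) (G s) x = 0) (s0 : Spin (n + 1))
    (u : (Fin (n + 1) → E3) → ℂ) (K : Fin (n + 1) → Fin 3 → (Fin (n + 1) → E3) → ℂ)
    (hu : MemLp u 2) (hK : ∀ j i, MemLp (K j i) 2)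
    (hD : ∀ j i, WD (ee (n + 1) j i) u (K j i)) :
    ∫ x, FF (E0 n v) v u K (Ψ s0) (G s0) x = 0 := by
  by_cases hI : Integrable (FF (E0 n v) v u K (Ψ s0) (G s0))
  swap
  · exact integral_undef hI
  have key : ∀ (u : (Fin (n + 1) → E3) → ℂ) (K : Fin (n + 1) → Fin 3 → (Fin (n + 1) → E3) → ℂ),
      MemLp u 2 → (∀ j i, MemLp (K j i) 2) → (∀ j i, WD (ee (n + 1) j i) u (K j i)) →
      Integrable (FF (E0 n v) v u K (Ψ s0) (G s0)) →
      ∫ x, (FF (E0 n v) v u K (Ψ s0) (G s0) x).re = 0 := by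
    intro u K hu hK hD hI
    obtain ⟨i1, e1⟩ := EL1 hB h (isWave_A (s0 := s0) hu hK hD) h0
    rw [← integral_finsetSum _ fun s _ => i1 s] at e1
    have hIr : Integrable fun x => (FF (E0 n v) v u K (Ψ s0) (G s0) x).re := hI.re
    have e2 : ∫ x, ∑ s, (FF (E0 n v) v (AW s0 u s) (AG s0 K s) (Ψ s) (G s) x).re =
        ∫ x, ∑ π : Equiv.Perm (Fin (n + 1)), (FF (E0 n v) v u K (Ψ s0) (G s0) (x ∘ π)).re := by
      refine integral_congr_ae ((FF_sum (v := v) (E := E0 n v) h s0 u K).mono fun x hx => ?_)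
      simp only []
      rw [← Complex.re_sum, hx, Complex.re_sum]
    have hIπ : ∀ π : Equiv.Perm (Fin (n + 1)), Integrable fun x =>
        (FF (E0 n v) v u K (Ψ s0) (G s0) (x ∘ π)).re := fun π =>
      (RR_mp π).integrable_comp_of_integrable hIr
    have e3 : ∀ π : Equiv.Perm (Fin (n + 1)),
        ∫ x, (FF (E0 n v) v u K (Ψ s0) (G s0) (x ∘ π)).re =
          ∫ x, (FF (E0 n v) v u K (Ψ s0) (G s0) x).re := fun π =>
      (RR_mp π).integral_comp (RR π).toHomeomorph.measurableEmbedding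
        (fun x => (FF (E0 n v) v u K (Ψ s0) (G s0) x).re)
    rw [e2, integral_finsetSum _ fun π _ => hIπ π] at e1
    simp only [e3, Finset.sum_const, nsmul_eq_mul] at e1
    rcases mul_eq_zero.1 e1 with h' | h'
    · exact absurd (Nat.cast_eq_zero.1 h')
        (Finset.card_ne_zero_of_mem (Finset.mem_univ (1 : Equiv.Perm (Fin (n + 1)))))
    · exact h'
  have r1 := key u K hu hK hD hI
  have hI2 : Integrable (FF (E0 n v) v (fun x => Complex.I * u x)
      (fun j i x => Complex.I * K j i x) (Ψ s0) (G s0)) := by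
    refine (hI.const_mul (conj Complex.I)).congr (Eventually.of_forall fun x => ?_)
    rw [FF_smul]
  have r2 := key (fun x => Complex.I * u x) (fun j i x => Complex.I * K j i x)
    (hu.const_mul _) (fun j i => (hK j i).const_mul _) (fun j i => WD_smul _ (hD j i)) hI2
  have r3 : ∫ x, (FF (E0 n v) v u K (Ψ s0) (G s0) x).im = 0 := by
    rw [← r2]
    refine integral_congr_ae (Eventually.of_forall fun x => ?_)
    simp only [FF_smul]
    simp
  apply Complex.ext
  · have := integral_re hI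
    simp only [RCLike.re_eq_complex_re] at this
    rw [← this, r1]; rfl
  · have := integral_im hI
    simp only [RCLike.im_eq_complex_im] at this
    rw [← this, r3]; rfl

theorem pot_eq (n : ℕ) (v : E3 → ℝ) (z : Xn n) : pot n v z = VV v (LL n z) := by
  rw [LL_apply, pot, VV]
  simp only [Fin.sum_univ_succ, Fin.cons_zero, Fin.cons_succ, lt_self_iff_false, if_false,
    Fin.succ_pos, if_true, Fin.not_lt_zero, Fin.succ_lt_succ_iff, zero_add]
  ring

theorem LLs_mp (n : ℕ) : MeasurePreserving ((LL n).symm : (Fin (n + 1) → E3) → Xn n) := by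
  have h := (LL_mp n).symm (LL n).toHomeomorph.toMeasurableEquiv
  exact h

theorem t_EL2 : Pool.Agent.H998.HK.S_EL2 := by
  intro hW n v hv Ψ G hΨ hN hE s
  obtain ⟨C, hC, hB⟩ := hW n v hv
  have hB : HB n v C := hB
  have h0 : ∑ s, ∫ x, qq (E0 n v) v (Ψ s) (G s) x = 0 := by
    rw [energy_eq hB hΨ, hN, hE]; ring
  refine ⟨⟨?_, ?_, ?_, ?_, ?_⟩, ?_⟩
  · exact (hΨ.memLp s).comp_measurePreserving (LL_mp n)
  · exact fun i => (hΨ.gradMemLp s 0 i).comp_measurePreserving (LL_mp n)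
  · exact fun j i => (hΨ.gradMemLp s j.succ i).comp_measurePreserving (LL_mp n)
  · intro i
    exact WD_comp (LL n) (LL_mp n) (ex n i) (Ψ s) (G s 0 i) (by
      rw [LL_ex]; exact hΨ.grad s 0 i)
  · intro j i
    exact WD_comp (LL n) (LL_mp n) (ey n j i) (Ψ s) (G s j.succ i) (by
      rw [LL_ey]; exact hΨ.grad s j.succ i)
  · intro g Gx Gy hg
    let u : (Fin (n + 1) → E3) → ℂ := fun x => g ((LL n).symm x)
    let K : Fin (n + 1) → Fin 3 → (Fin (n + 1) → E3) → ℂ := fun j i x =>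
      Fin.cases (motive := fun _ => ℂ) (Gx i ((LL n).symm x)) (fun j => Gy j i ((LL n).symm x)) j
    have hu : MemLp u 2 := hg.f2.comp_measurePreserving (LLs_mp n)
    have hK : ∀ j i, MemLp (K j i) 2 := by
      intro j i
      refine Fin.cases ?_ (fun j => ?_) j
      · exact (hg.x2 i).comp_measurePreserving (LLs_mp n)
      · exact (hg.y2 j i).comp_measurePreserving (LLs_mp n)
    have hD : ∀ j i, WD (ee (n + 1) j i) u (K j i) := by
      intro j i
      refine Fin.cases ?_ (fun j => ?_) j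
      · refine WD_comp (LL n).symm (LLs_mp n) (ee (n + 1) 0 i) g (Gx i) ?_
        rw [← LL_ex, ContinuousLinearEquiv.symm_apply_apply]
        exact hg.wx i
      · refine WD_comp (LL n).symm (LLs_mp n) (ee (n + 1) j.succ i) g (Gy j i) ?_
        rw [← LL_ey, ContinuousLinearEquiv.symm_apply_apply]
        exact hg.wy j i
    have main := EL_comp hB hΨ h0 s u K hu hK hD
    rw [← (LL_mp n).integral_comp (LL n).toHomeomorph.measurableEmbedding] at main
    rw [← main]
    refine integral_congr_ae (Eventually.of_forall fun z => ?_)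
    simp only [formInt, FF, pot_eq, Fin.sum_univ_succ (n := n), u, K, Fin.cases_zero,
      Fin.cases_succ, ContinuousLinearEquiv.symm_apply_apply]
    rfl

end Pool.Agent.H123.HK
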